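import Mathlib

set_option autoImplicit false

open Finset

namespace Pool.Agent.Rank

variable {α : Type*} [Fintype α] [DecidableEq α]

/-- The number of `a`-sets between `T` and `A`. -/
theorem count_between (T A : Finset α) (a : ℕ) (h : T ⊆ A) (hT : T.card ≤ a) :
    (((univ : Finset α).powersetCard a).filter (fun x : Finset α => T ⊆ x ∧ x ⊆ A)).card =
      (A.card - T.card).choose (a - T.card) := by
  rw [← card_sdiff_of_subset h, ← card_powersetCard]
  refine card_bij' (fun x _ => x \ T) (fun y _ => y ∪ T) ?_ ?_ ?_ ?_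
  · intro x hx
    simp only [mem_filter, mem_powersetCard, subset_univ, true_and] at hx
    rw [mem_powersetCard]
    refine ⟨sdiff_subset_sdiff hx.2.2 (le_refl T), ?_⟩
    rw [card_sdiff_of_subset hx.2.1, hx.1]
  · intro y hy
    rw [mem_powersetCard] at hy
    have hd : Disjoint y T := by
      rw [Finset.disjoint_left]
      intro z hz hz'
      exact (mem_sdiff.mp (hy.1 hz)).2 hz'
    simp only [mem_filter, mem_powersetCard, subset_univ, true_and]
    refine ⟨?_, subset_union_right, union_subset (hy.1.trans sdiff_subset) h⟩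
    rw [card_union_of_disjoint hd, hy.2]
    omega
  · intro x hx
    simp only [mem_filter, mem_powersetCard, subset_univ, true_and] at hx
    exact sdiff_union_of_subset hx.2.1
  · intro y hy
    rw [mem_powersetCard] at hy
    have hd : Disjoint y T := by
      rw [Finset.disjoint_left]
      intro z hz hz'
      exact (mem_sdiff.mp (hy.1 hz)).2 hz'
    rw [union_sdiff_right]
    exact sdiff_eq_self_of_disjoint hd

/-- The same, as a sum of products of indicators. -/
theorem sum_between (T A : Finset α) (a : ℕ) (hT : T.card ≤ a) :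
    ∑ x ∈ (univ : Finset α).powersetCard a,
      (if x ⊆ A then (1 : ℚ) else 0) * (if T ⊆ x then (1 : ℚ) else 0) =
      ((A.card - T.card).choose (a - T.card) : ℚ) * (if T ⊆ A then (1 : ℚ) else 0) := by
  by_cases h : T ⊆ A
  · rw [if_pos h, mul_one, ← count_between T A a h hT, card_filter]
    push_cast
    refine sum_congr rfl fun x _ => ?_
    by_cases h1 : T ⊆ x <;> by_cases h2 : x ⊆ A <;> simp [h1, h2]
  · rw [if_neg h, mul_zero]
    refine sum_eq_zero fun x _ => ?_
    by_cases h1 : T ⊆ x
    · by_cases h2 : x ⊆ A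
      · exact absurd (h1.trans h2) h
      · simp [h2]
    · simp [h1]

/-- A function on the `a`-sets which kills all `T` of size `s` kills all `J` of size at most `s`. -/
theorem lower_degree {s a : ℕ} (hs : s ≤ a) (μ : Finset α → ℚ)
    (hμ : ∀ T : Finset α, T.card = s →
      ∑ x ∈ (univ : Finset α).powersetCard a, μ x * (if T ⊆ x then (1 : ℚ) else 0) = 0)
    (J : Finset α) (hJ : J.card ≤ s) :
    ∑ x ∈ (univ : Finset α).powersetCard a, μ x * (if J ⊆ x then (1 : ℚ) else 0) = 0 := by
  have h1 : ∑ T ∈ (univ : Finset α).powersetCard s, (if J ⊆ T then (1 : ℚ) else 0) *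
      ∑ x ∈ (univ : Finset α).powersetCard a, μ x * (if T ⊆ x then (1 : ℚ) else 0) = 0 := by
    refine sum_eq_zero fun T hT => ?_
    rw [hμ T (mem_powersetCard.mp hT).2, mul_zero]
  have h2 : ∑ T ∈ (univ : Finset α).powersetCard s, (if J ⊆ T then (1 : ℚ) else 0) *
      ∑ x ∈ (univ : Finset α).powersetCard a, μ x * (if T ⊆ x then (1 : ℚ) else 0) =
      ((a - J.card).choose (s - J.card) : ℚ) *
        ∑ x ∈ (univ : Finset α).powersetCard a, μ x * (if J ⊆ x then (1 : ℚ) else 0) := by
    simp_rw [mul_sum]
    rw [sum_comm]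
    refine sum_congr rfl fun x hx => ?_
    have h3 := sum_between J x s hJ
    rw [(mem_powersetCard.mp hx).2] at h3
    calc ∑ T ∈ (univ : Finset α).powersetCard s,
          (if J ⊆ T then (1 : ℚ) else 0) * (μ x * (if T ⊆ x then (1 : ℚ) else 0))
        = μ x * ∑ T ∈ (univ : Finset α).powersetCard s,
          (if T ⊆ x then (1 : ℚ) else 0) * (if J ⊆ T then (1 : ℚ) else 0) := by
          rw [mul_sum]
          exact sum_congr rfl fun T _ => by ring
      _ = _ := by rw [h3]; ring
  rw [h2] at h1
  rcases mul_eq_zero.mp h1 with h | h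
  · exfalso
    have : 0 < (a - J.card).choose (s - J.card) := Nat.choose_pos (by omega)
    have h' : ((a - J.card).choose (s - J.card) : ℚ) ≠ 0 := by positivity
    exact h' h
  · exact h

/-- Inclusion and exclusion over the subsets of size at most `s` of the complement of `Y`. -/
theorem ind_eq_sum {s : ℕ} (x Y : Finset α) (h : (x \ Y).card ≤ s) :
    (if x ⊆ Y then (1 : ℚ) else 0) =
      ∑ J ∈ (Yᶜ).powerset.filter (fun J => J.card ≤ s),
        (-1 : ℚ) ^ J.card * (if J ⊆ x then (1 : ℚ) else 0) := by
  have h1 : ∑ J ∈ (Yᶜ).powerset.filter (fun J => J.card ≤ s),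
        (-1 : ℚ) ^ J.card * (if J ⊆ x then (1 : ℚ) else 0) =
      ∑ J ∈ (x \ Y).powerset, (-1 : ℚ) ^ J.card := by
    rw [← sum_filter_add_sum_filter_not ((Yᶜ).powerset.filter (fun J => J.card ≤ s))
      (fun J => J ⊆ x)]
    have e2 : ∑ J ∈ ((Yᶜ).powerset.filter (fun J => J.card ≤ s)).filter (fun J => ¬ J ⊆ x),
        (-1 : ℚ) ^ J.card * (if J ⊆ x then (1 : ℚ) else 0) = 0 :=
      sum_eq_zero fun J hJ => by
        rw [if_neg (mem_filter.mp hJ).2, mul_zero]
    rw [e2, add_zero]
    have e3 : ((Yᶜ).powerset.filter (fun J => J.card ≤ s)).filter (fun J => J ⊆ x) =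
        (x \ Y).powerset := by
      ext J
      simp only [mem_filter, mem_powerset]
      constructor
      · rintro ⟨⟨hJ1, _⟩, hJ2⟩ z hz
        exact mem_sdiff.mpr ⟨hJ2 hz, mem_compl.mp (hJ1 hz)⟩
      · intro hJ
        refine ⟨⟨fun z hz => mem_compl.mpr (mem_sdiff.mp (hJ hz)).2, ?_⟩,
          fun z hz => (mem_sdiff.mp (hJ hz)).1⟩
        exact (card_le_card hJ).trans h
    rw [e3]
    refine sum_congr rfl fun J hJ => ?_
    rw [if_pos ((mem_powerset.mp hJ).trans sdiff_subset), mul_one]
  rw [h1]
  have h2 := sum_powerset_neg_one_pow_card (x := x \ Y)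
  have h3 : ∑ J ∈ (x \ Y).powerset, (-1 : ℚ) ^ J.card =
      ((∑ J ∈ (x \ Y).powerset, (-1 : ℤ) ^ J.card : ℤ) : ℚ) := by push_cast; rfl
  rw [h3, h2]
  by_cases h4 : x ⊆ Y
  · rw [if_pos h4, if_pos (sdiff_eq_empty_iff_subset.mpr h4)]; simp
  · rw [if_neg h4, if_neg (fun h5 => h4 (sdiff_eq_empty_iff_subset.mp h5))]; simp

/-- If `Y` is `s`-dominating for the support of `μ`, the mass of `μ` below `Y` is zero. -/
theorem mass_zero {s a : ℕ} (hs : s ≤ a) (μ : Finset α → ℚ)
    (hμ : ∀ T : Finset α, T.card = s →
      ∑ x ∈ (univ : Finset α).powersetCard a, μ x * (if T ⊆ x then (1 : ℚ) else 0) = 0)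
    (Y : Finset α)
    (hY : ∀ x ∈ (univ : Finset α).powersetCard a, μ x ≠ 0 → (x \ Y).card ≤ s) :
    ∑ x ∈ (univ : Finset α).powersetCard a, μ x * (if x ⊆ Y then (1 : ℚ) else 0) = 0 := by
  have h1 : ∀ x ∈ (univ : Finset α).powersetCard a, μ x * (if x ⊆ Y then (1 : ℚ) else 0) =
      ∑ J ∈ (Yᶜ).powerset.filter (fun J => J.card ≤ s),
        (-1 : ℚ) ^ J.card * (μ x * (if J ⊆ x then (1 : ℚ) else 0)) := by
    intro x hx
    by_cases h0 : μ x = 0
    · simp [h0]
    · rw [ind_eq_sum x Y (hY x hx h0), mul_sum]
      exact sum_congr rfl fun J _ => by ring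
  rw [sum_congr rfl h1, sum_comm]
  refine sum_eq_zero fun J hJ => ?_
  rw [← mul_sum, lower_degree hs μ hμ J (mem_filter.mp hJ).2, mul_zero]

/-- The weighted shadow of a relation, on the `a`-sets. -/
def push (s a : ℕ) (F : Finset (Finset α)) (c : Finset α → ℚ) (x : Finset α) : ℚ :=
  ∑ A ∈ F, c A / ((A.card - s).choose (a - s) : ℚ) * (if x ⊆ A then (1 : ℚ) else 0)

theorem push_contract {s a : ℕ} (hs : s ≤ a) (F : Finset (Finset α))
    (hlo : ∀ A ∈ F, a ≤ A.card) (c : Finset α → ℚ) (T : Finset α) (hT : T.card = s) :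
    ∑ x ∈ (univ : Finset α).powersetCard a,
      push s a F c x * (if T ⊆ x then (1 : ℚ) else 0) =
      ∑ A ∈ F, c A * (if T ⊆ A then (1 : ℚ) else 0) := by
  simp_rw [push, sum_mul]
  rw [sum_comm]
  refine sum_congr rfl fun A hA => ?_
  have h1 := sum_between T A a (by omega)
  rw [hT] at h1
  have h2 : ((A.card - s).choose (a - s) : ℚ) ≠ 0 := by
    have := hlo A hA
    have h3 : 0 < (A.card - s).choose (a - s) := Nat.choose_pos (by omega)
    positivity
  calc ∑ x ∈ (univ : Finset α).powersetCard a,
        c A / ((A.card - s).choose (a - s) : ℚ) * (if x ⊆ A then (1 : ℚ) else 0) *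
          (if T ⊆ x then (1 : ℚ) else 0)
      = c A / ((A.card - s).choose (a - s) : ℚ) * ∑ x ∈ (univ : Finset α).powersetCard a,
        (if x ⊆ A then (1 : ℚ) else 0) * (if T ⊆ x then (1 : ℚ) else 0) := by
        rw [mul_sum]
        exact sum_congr rfl fun x _ => by ring
    _ = _ := by
        rw [h1]
        field_simp

/-- Independence of the `s`-inclusion vectors of an antichain `F` with sizes at least `a ≥ s`, if
`|A \ B| ≤ s` for all `A, B ∈ F`, except possibly when `|A| > a = |B|`. -/
theorem indep {s a : ℕ} {F : Finset (Finset α)} (hs : s ≤ a)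
    (hanti : IsAntichain (· ⊆ ·) (F : Set (Finset α)))
    (hlo : ∀ A ∈ F, a ≤ A.card)
    (h1 : ∀ A ∈ F, ∀ B ∈ F, A.card = a → (A \ B).card ≤ s)
    (h2 : ∀ A ∈ F, ∀ B ∈ F, a < A.card → a < B.card → (A \ B).card ≤ s)
    (c : Finset α → ℚ)
    (hc : ∀ T : Finset α, T.card = s → ∑ A ∈ F, c A * (if T ⊆ A then (1 : ℚ) else 0) = 0) :
    ∀ A ∈ F, c A = 0 := by
  induction hd : Fintype.card α + 1 - a generalizing a F with
  | zero =>
    intro A hA
    have e1 := hlo A hA
    have e2 := card_le_univ A
    omega
  | succ d ih =>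
    set G := F.filter (fun A => a < A.card) with hG
    have hGF : G ⊆ F := filter_subset _ _
    have hμ : ∀ T : Finset α, T.card = s →
        ∑ x ∈ (univ : Finset α).powersetCard a,
          push s a F c x * (if T ⊆ x then (1 : ℚ) else 0) = 0 := by
      intro T hT
      rw [push_contract hs F hlo c T hT, hc T hT]
    have hsupp : ∀ x, push s a F c x ≠ 0 → ∃ A ∈ F, x ⊆ A := by
      intro x hx
      by_contra hcon
      push Not at hcon
      apply hx
      rw [push]
      refine sum_eq_zero fun A hA => ?_
      rw [if_neg (hcon A hA), mul_zero]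
    -- every member dominates at least the bottom; members of `G` dominate everything
    have hdomG : ∀ Y ∈ G, ∑ x ∈ (univ : Finset α).powersetCard a,
        push s a F c x * (if x ⊆ Y then (1 : ℚ) else 0) = 0 := by
      intro Y hY
      refine mass_zero hs _ hμ Y ?_
      intro x hx hne
      obtain ⟨A, hA, hxA⟩ := hsupp x hne
      have h3 : (x \ Y).card ≤ (A \ Y).card := card_le_card (sdiff_subset_sdiff hxA (le_refl Y))
      refine h3.trans ?_
      have hYF := hGF hY
      have hYc : a < Y.card := (mem_filter.mp hY).2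
      rcases Nat.lt_or_ge a A.card with h4 | h4
      · exact h2 A hA Y hYF h4 hYc
      · exact h1 A hA Y hYF (le_antisymm h4 (hlo A hA))
    -- below `Y ∈ G` only members of `G` contribute
    have hpushG : ∀ Y ∈ G, ∀ x ∈ (univ : Finset α).powersetCard a, x ⊆ Y →
        push s a F c x = push s a G c x := by
      intro Y hY x hx hxY
      rw [push, push]
      symm
      refine sum_subset hGF fun A hA hAG => ?_
      have hAc : A.card = a := by
        have := hlo A hA
        by_contra hne
        exact hAG (mem_filter.mpr ⟨hA, by omega⟩)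
      have hxA : ¬ x ⊆ A := by
        intro hxA
        have : x = A := eq_of_subset_of_card_le hxA (by
          rw [hAc, (mem_powersetCard.mp hx).2])
        subst this
        have hne : x ≠ Y := by
          intro h
          have := (mem_filter.mp hY).2
          rw [← h] at this
          omega
        exact hanti (mem_coe.mpr hA) (mem_coe.mpr (hGF hY)) hne hxY
      rw [if_neg hxA, mul_zero]
    have hzeroY : ∀ Y ∈ G, ∑ x ∈ (univ : Finset α).powersetCard a,
        push s a G c x * (if x ⊆ Y then (1 : ℚ) else 0) = 0 := by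
      intro Y hY
      refine Eq.trans (sum_congr rfl fun x hx => ?_) (hdomG Y hY)
      by_cases h : x ⊆ Y
      · rw [hpushG Y hY x hx h]
      · rw [if_neg h, mul_zero, mul_zero]
    have hsq : ∑ x ∈ (univ : Finset α).powersetCard a, push s a G c x * push s a G c x = 0 := by
      have e1 : ∀ x ∈ (univ : Finset α).powersetCard a, push s a G c x * push s a G c x =
          ∑ Y ∈ G, c Y / ((Y.card - s).choose (a - s) : ℚ) *
            (push s a G c x * (if x ⊆ Y then (1 : ℚ) else 0)) := by
        intro x _
        conv_lhs => rw [push.eq_def s a G c x]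
        rw [sum_mul]
        refine sum_congr rfl fun Y _ => ?_
        rw [← push.eq_def s a G c x]
        ring
      rw [sum_congr rfl e1, sum_comm]
      refine sum_eq_zero fun Y hY => ?_
      rw [← mul_sum, hzeroY Y hY, mul_zero]
    have hpz : ∀ x ∈ (univ : Finset α).powersetCard a, push s a G c x = 0 := by
      intro x hx
      have := (sum_eq_zero_iff_of_nonneg (fun x _ => mul_self_nonneg (push s a G c x))).mp hsq x hx
      exact mul_self_eq_zero.mp this
    have hGc : ∀ A ∈ G, c A = 0 := by
      refine ih (a := a + 1) (F := G) (by omega) (hanti.subset (by exact_mod_cast hGF)) ?_ ?_ ?_ ?_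
        (by omega)
      · intro A hA
        exact (mem_filter.mp hA).2
      · intro A hA B hB hAc
        exact h2 A (hGF hA) B (hGF hB) (mem_filter.mp hA).2 (mem_filter.mp hB).2
      · intro A hA B hB _ _
        exact h2 A (hGF hA) B (hGF hB) (mem_filter.mp hA).2 (mem_filter.mp hB).2
      · intro T hT
        rw [← push_contract hs G (fun A hA => hlo A (hGF hA)) c T hT]
        refine sum_eq_zero fun x hx => ?_
        rw [hpz x hx, zero_mul]
    intro Y hY
    rcases Nat.lt_or_ge a Y.card with h4 | h4
    · exact hGc Y (mem_filter.mpr ⟨hY, h4⟩)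
    · have hYc : Y.card = a := le_antisymm h4 (hlo Y hY)
      -- on `a`-sets the pushed relation is `c` itself
      have hpF : ∀ x ∈ (univ : Finset α).powersetCard a,
          push s a F c x = if x ∈ F then c x else 0 := by
        intro x hx
        rw [push]
        have e1 : ∀ A ∈ F, c A / ((A.card - s).choose (a - s) : ℚ) *
            (if x ⊆ A then (1 : ℚ) else 0) = if x = A then c x else 0 := by
          intro A hA
          rcases Nat.lt_or_ge a A.card with h5 | h5
          · rw [hGc A (mem_filter.mpr ⟨hA, h5⟩), zero_div, zero_mul]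
            rw [if_neg]
            intro h
            rw [← h, (mem_powersetCard.mp hx).2] at h5
            omega
          · have hAc : A.card = a := le_antisymm h5 (hlo A hA)
            rw [hAc, Nat.choose_self]
            by_cases h6 : x = A
            · rw [h6]; simp
            · rw [if_neg h6, if_neg, mul_zero]
              intro h7
              exact h6 (eq_of_subset_of_card_le h7 (by rw [hAc, (mem_powersetCard.mp hx).2]))
        rw [sum_congr rfl e1, sum_ite_eq]
      have h5 := mass_zero hs _ hμ Y (by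
        intro x hx hne
        rw [hpF x hx] at hne
        have hxF : x ∈ F := by
          by_contra h
          exact hne (if_neg h)
        exact h1 x hxF Y hY (mem_powersetCard.mp hx).2)
      have h6 : ∑ x ∈ (univ : Finset α).powersetCard a,
          push s a F c x * (if x ⊆ Y then (1 : ℚ) else 0) = c Y := by
        rw [sum_eq_single Y]
        · rw [hpF Y (mem_powersetCard.mpr ⟨subset_univ _, hYc⟩)]
          simp [hY]
        · intro x hx hne
          rw [if_neg, mul_zero]
          intro h
          exact hne (eq_of_subset_of_card_le h (by rw [hYc, (mem_powersetCard.mp hx).2]))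
        · intro h
          exact absurd (mem_powersetCard.mpr ⟨subset_univ _, hYc⟩) h
      rw [← h6, h5]

/-- The number of members is at most the size of the `s`-shadow. -/
theorem card_le_shadow {s a : ℕ} {F : Finset (Finset α)} (hs : s ≤ a)
    (hanti : IsAntichain (· ⊆ ·) (F : Set (Finset α)))
    (hlo : ∀ A ∈ F, a ≤ A.card)
    (h1 : ∀ A ∈ F, ∀ B ∈ F, A.card = a → (A \ B).card ≤ s)
    (h2 : ∀ A ∈ F, ∀ B ∈ F, a < A.card → a < B.card → (A \ B).card ≤ s) :
    F.card ≤ (univ.filter (fun T : Finset α => T.card = s ∧ ∃ A ∈ F, T ⊆ A)).card := by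
  set S := univ.filter (fun T : Finset α => T.card = s ∧ ∃ A ∈ F, T ⊆ A) with hS
  let v : F → (S → ℚ) := fun A T => if (T : Finset α) ⊆ (A : Finset α) then (1 : ℚ) else 0
  have hli : LinearIndependent ℚ v := by
    rw [Fintype.linearIndependent_iff]
    intro g hg
    set c : Finset α → ℚ := fun A => if h : A ∈ F then g ⟨A, h⟩ else 0 with hcdef
    have hc : ∀ T : Finset α, T.card = s →
        ∑ A ∈ F, c A * (if T ⊆ A then (1 : ℚ) else 0) = 0 := by
      intro T hT
      by_cases hTS : T ∈ S
      · have e1 := congrFun hg ⟨T, hTS⟩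
        simp only [Finset.sum_apply, Pi.smul_apply, smul_eq_mul, Pi.zero_apply, v] at e1
        rw [← sum_coe_sort F]
        refine Eq.trans (sum_congr rfl fun A _ => ?_) e1
        simp only [hcdef]
        rw [dif_pos A.2]
      · refine sum_eq_zero fun A hA => ?_
        rw [if_neg, mul_zero]
        intro h
        exact hTS (mem_filter.mpr ⟨mem_univ _, hT, A, hA, h⟩)
    intro A
    have e2 := indep hs hanti hlo h1 h2 c hc A A.2
    simp only [hcdef] at e2
    rwa [dif_pos A.2] at e2
  have h3 := hli.fintype_card_le_finrank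
  rw [Module.finrank_fintype_fun_eq_card, Fintype.card_coe, Fintype.card_coe] at h3
  exact h3

end Pool.Agent.Rank
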