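import Mathlib
import Pool.Agent.Rank.Core

set_option autoImplicit false

open Finset

namespace Pool.Agent.Rank

variable {α : Type*} [Fintype α] [DecidableEq α]

theorem choose_mono_half {n i j : ℕ} (hij : i ≤ j) (hj : 2 * j ≤ n) : n.choose i ≤ n.choose j := by
  induction j, hij using Nat.le_induction with
  | base => exact le_rfl
  | succ m hm ih =>
    exact (ih (by omega)).trans (Nat.choose_le_succ_of_lt_half_left (by omega))

/-- The `s`-sets above the members of size at most `s`. -/
def above (s : ℕ) (F : Finset (Finset α)) : Finset (Finset α) :=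
  univ.filter (fun T : Finset α => T.card = s ∧ ∃ A ∈ F, A.card ≤ s ∧ A ⊆ T)

theorem mem_above {s : ℕ} {F : Finset (Finset α)} {T : Finset α} :
    T ∈ above s F ↔ T.card = s ∧ ∃ A ∈ F, A.card ≤ s ∧ A ⊆ T := by
  simp [above]

/-- From the LYM inequality: an antichain has at most as many members of size at most `s` as there
are `s`-sets above these members. -/
theorem card_le_above {s : ℕ} (hs : 2 * s ≤ Fintype.card α) {F : Finset (Finset α)}
    (hanti : IsAntichain (· ⊆ ·) (F : Set (Finset α))) :
    (F.filter (fun A => A.card ≤ s)).card ≤ (above s F).card := by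
  set G := F.filter (fun A => A.card ≤ s) with hG
  set R := (univ : Finset α).powersetCard s \ above s F with hR
  have hmemR : ∀ T, T ∈ R ↔ T.card = s ∧ ∀ A ∈ F, A.card ≤ s → ¬ A ⊆ T := by
    intro T
    simp only [hR, mem_sdiff, mem_powersetCard, subset_univ, true_and, mem_above, not_and,
      not_exists]
    constructor
    · rintro ⟨h1, h2⟩
      exact ⟨h1, h2 h1⟩
    · rintro ⟨h1, h2⟩
      exact ⟨h1, fun _ => h2⟩
  have hdis : Disjoint G R := by
    rw [Finset.disjoint_left]
    intro A hA hA'
    have h1 := mem_filter.mp hA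
    exact ((hmemR A).mp hA').2 A h1.1 h1.2 (le_refl _)
  have hanti' : IsAntichain (· ⊆ ·) ((G ∪ R : Finset (Finset α)) : Set (Finset α)) := by
    intro A hA B hB hne hAB
    rw [mem_coe, mem_union] at hA hB
    rcases hA with hA | hA <;> rcases hB with hB | hB
    · exact hanti (mem_coe.mpr (mem_filter.mp hA).1) (mem_coe.mpr (mem_filter.mp hB).1) hne hAB
    · have h1 := mem_filter.mp hA
      exact ((hmemR B).mp hB).2 A h1.1 h1.2 hAB
    · have h1 := mem_filter.mp hB
      have h2 := ((hmemR A).mp hA).1
      exact hne (eq_of_subset_of_card_le hAB (by rw [h2]; exact h1.2))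
    · have h1 := ((hmemR A).mp hA).1
      have h2 := ((hmemR B).mp hB).1
      exact hne (eq_of_subset_of_card_le hAB (by rw [h1, h2]))
  have hlym := lubell_yamamoto_meshalkin_inequality_sum_inv_choose (𝕜 := ℚ) hanti'
  rw [sum_union hdis] at hlym
  have hpos : (0 : ℚ) < ((Fintype.card α).choose s : ℚ) := by
    exact_mod_cast Nat.choose_pos (by omega)
  have hGsum : (G.card : ℚ) * ((Fintype.card α).choose s : ℚ)⁻¹ ≤
      ∑ A ∈ G, ((Fintype.card α).choose A.card : ℚ)⁻¹ := by
    rw [← nsmul_eq_mul]
    refine card_nsmul_le_sum _ _ _ fun A hA => ?_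
    have h1 : A.card ≤ s := (mem_filter.mp hA).2
    have h2 : (Fintype.card α).choose A.card ≤ (Fintype.card α).choose s :=
      choose_mono_half h1 hs
    have h4 : (0 : ℚ) < ((Fintype.card α).choose A.card : ℚ) := by
      exact_mod_cast Nat.choose_pos (card_le_univ A)
    exact inv_anti₀ h4 (by exact_mod_cast h2)
  have hRsum : ∑ A ∈ R, ((Fintype.card α).choose A.card : ℚ)⁻¹ =
      (R.card : ℚ) * ((Fintype.card α).choose s : ℚ)⁻¹ := by
    rw [← nsmul_eq_mul, ← sum_const]
    exact sum_congr rfl fun A hA => by rw [((hmemR A).mp hA).1]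
  have hsub : above s F ⊆ (univ : Finset α).powersetCard s := by
    intro T hT
    exact mem_powersetCard.mpr ⟨subset_univ _, (mem_above.mp hT).1⟩
  have hRcard : R.card + (above s F).card = (Fintype.card α).choose s := by
    rw [hR, card_sdiff_add_card_eq_card hsub, card_powersetCard, card_univ]
  have h5 : ((G.card : ℚ) + R.card) * ((Fintype.card α).choose s : ℚ)⁻¹ ≤ 1 := by
    rw [add_mul]
    linarith [hRsum]
  have h6 : (G.card : ℚ) + R.card ≤ ((Fintype.card α).choose s : ℚ) := by
    rw [← div_eq_mul_inv, div_le_one hpos] at h5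
    exact h5
  have h7 : G.card + R.card ≤ (Fintype.card α).choose s := by exact_mod_cast h6
  omega

/-- The members of size more than `s`, together with the `s`-sets above the other members. -/
def pushLow (s : ℕ) (F : Finset (Finset α)) : Finset (Finset α) :=
  F.filter (fun A => s < A.card) ∪ above s F

theorem mem_pushLow {s : ℕ} {F : Finset (Finset α)} {A : Finset α} :
    A ∈ pushLow s F ↔ (A ∈ F ∧ s < A.card) ∨ (A.card = s ∧ ∃ B ∈ F, B.card ≤ s ∧ B ⊆ A) := by
  rw [pushLow, mem_union, mem_filter, mem_above]

theorem pushLow_antichain {s : ℕ} {F : Finset (Finset α)}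
    (hanti : IsAntichain (· ⊆ ·) (F : Set (Finset α))) :
    IsAntichain (· ⊆ ·) (pushLow s F : Set (Finset α)) := by
  intro A hA B hB hne hAB
  rw [mem_coe, mem_pushLow] at hA hB
  have hle := card_le_card hAB
  rcases hA with ⟨hA, hA'⟩ | ⟨hA, A0, hA0, hA1, hA2⟩ <;>
    rcases hB with ⟨hB, hB'⟩ | ⟨hB, B0, hB0, hB1, hB2⟩
  · exact hanti (mem_coe.mpr hA) (mem_coe.mpr hB) hne hAB
  · omega
  · refine hanti (mem_coe.mpr hA0) (mem_coe.mpr hB) ?_ (hA2.trans hAB)
    intro h
    rw [h] at hA1
    omega
  · exact hne (eq_of_subset_of_card_le hAB (by omega))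

theorem card_le_pushLow {s : ℕ} (hs : 2 * s ≤ Fintype.card α) {F : Finset (Finset α)}
    (hanti : IsAntichain (· ⊆ ·) (F : Set (Finset α))) :
    F.card ≤ (pushLow s F).card := by
  have h1 : Disjoint (F.filter (fun A => s < A.card)) (above s F) := by
    rw [Finset.disjoint_left]
    intro A hA hA'
    have e1 := (mem_filter.mp hA).2
    have e2 := (mem_above.mp hA').1
    omega
  have h2 := card_le_above hs hanti
  have h3 := card_filter_add_card_filter_not (s := F) (fun A => A.card ≤ s)
  have h4 : F.filter (fun A => ¬ A.card ≤ s) = F.filter (fun A => s < A.card) :=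
    filter_congr fun A _ => by rw [not_le]
  rw [pushLow, card_union_of_disjoint h1]
  rw [h4] at h3
  omega

/-- The bound for antichains whose members of size more than `s` satisfy the hypotheses of
`card_le_shadow`; the sizes at most `s` are arbitrary. -/
theorem card_le_choose {s a : ℕ} (hs : 2 * s ≤ Fintype.card α) (hsa : s < a)
    {F : Finset (Finset α)} (hanti : IsAntichain (· ⊆ ·) (F : Set (Finset α)))
    (hgap : ∀ A ∈ F, A.card ≤ s ∨ a ≤ A.card)
    (h1 : ∀ A ∈ F, ∀ B ∈ F, A.card = a → a ≤ B.card → (A \ B).card ≤ s)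
    (h2 : ∀ A ∈ F, ∀ B ∈ F, a < A.card → a < B.card → (A \ B).card ≤ s) :
    F.card ≤ (Fintype.card α).choose s := by
  set G := F.filter (fun A => s < A.card) with hG
  have hGF : G ⊆ F := filter_subset _ _
  have hlo : ∀ A ∈ G, a ≤ A.card := by
    intro A hA
    have e1 := (mem_filter.mp hA).2
    have e2 := hgap A (hGF hA)
    omega
  have h3 := card_le_shadow (s := s) (a := a) (F := G) hsa.le
    (hanti.subset (by exact_mod_cast hGF)) hlo
    (fun A hA B hB hAc => h1 A (hGF hA) B (hGF hB) hAc (hlo B hB))
    (fun A hA B hB => h2 A (hGF hA) B (hGF hB))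
  have h4 : F.card ≤ (pushLow s F).card := card_le_pushLow hs hanti
  have h5 : (pushLow s F).card ≤ G.card + (above s F).card := card_union_le _ _
  set S := univ.filter (fun T : Finset α => T.card = s ∧ ∃ A ∈ G, T ⊆ A) with hS
  have h6 : Disjoint S (above s F) := by
    rw [Finset.disjoint_left]
    intro T hT hT'
    obtain ⟨-, hTs, A, hA, hTA⟩ := mem_filter.mp hT
    obtain ⟨-, B, hB, hBs, hBT⟩ := mem_above.mp hT'
    refine hanti (mem_coe.mpr hB) (mem_coe.mpr (hGF hA)) ?_ (hBT.trans hTA)
    intro h
    have := (mem_filter.mp hA).2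
    rw [← h] at this
    omega
  have h7 : (S ∪ above s F).card ≤ ((univ : Finset α).powersetCard s).card := by
    refine card_le_card ?_
    intro T hT
    rw [mem_powersetCard]
    refine ⟨subset_univ _, ?_⟩
    rcases mem_union.mp hT with h | h
    · exact (mem_filter.mp h).2.1
    · exact (mem_above.mp h).1
  rw [card_union_of_disjoint h6, card_powersetCard, card_univ] at h7
  omega

/-- The family of complements. -/
def co (F : Finset (Finset α)) : Finset (Finset α) := F.image (fun A => Aᶜ)

theorem mem_co {F : Finset (Finset α)} {A : Finset α} : A ∈ co F ↔ Aᶜ ∈ F := by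
  rw [co, mem_image]
  constructor
  · rintro ⟨B, hB, rfl⟩
    rwa [compl_compl]
  · intro h
    exact ⟨Aᶜ, h, compl_compl A⟩

theorem card_co (F : Finset (Finset α)) : (co F).card = F.card :=
  card_image_of_injective _ compl_injective

theorem co_antichain {F : Finset (Finset α)}
    (hanti : IsAntichain (· ⊆ ·) (F : Set (Finset α))) :
    IsAntichain (· ⊆ ·) (co F : Set (Finset α)) := by
  intro A hA B hB hne hAB
  rw [mem_coe, mem_co] at hA hB
  exact hanti (mem_coe.mpr hB) (mem_coe.mpr hA) (fun h => hne (compl_injective h).symm)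
    (compl_subset_compl.mpr hAB)

theorem co_sdiff (A B : Finset α) : Aᶜ \ Bᶜ = B \ A := by
  ext x
  simp only [mem_sdiff, mem_compl, not_not]
  tauto

omit [Fintype α] in
theorem sdiff_le_of_diam {s : ℕ} {A B : Finset α} (h : (symmDiff A B).card ≤ 2 * s + 1)
    (hAB : A.card ≤ B.card) : (A \ B).card ≤ s := by
  have h1 : (symmDiff A B).card = (A \ B).card + (B \ A).card := by
    rw [symmDiff_def, sup_eq_union, card_union_of_disjoint]
    rw [Finset.disjoint_left]
    intro x hx hx'
    exact (mem_sdiff.mp hx').2 (mem_sdiff.mp hx).1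
  have h2 := card_sdiff_add_card_inter A B
  have h3 := card_sdiff_add_card_inter B A
  rw [inter_comm B A] at h3
  omega

omit [Fintype α] in
theorem sdiff_le_of_diam' {s : ℕ} {A B : Finset α} (h : (symmDiff A B).card ≤ 2 * s)
    (hAB : A.card ≤ B.card + 1) : (A \ B).card ≤ s := by
  have h1 : (symmDiff A B).card = (A \ B).card + (B \ A).card := by
    rw [symmDiff_def, sup_eq_union, card_union_of_disjoint]
    rw [Finset.disjoint_left]
    intro x hx hx'
    exact (mem_sdiff.mp hx').2 (mem_sdiff.mp hx).1
  have h2 := card_sdiff_add_card_inter A B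
  have h3 := card_sdiff_add_card_inter B A
  rw [inter_comm B A] at h3
  omega

/-- At most two sizes above `s` (three, the two largest being consecutive, for diameter `2 * s`);
the sizes at most `s` are arbitrary. -/
theorem two_above {s : ℕ} (hs : 2 * s ≤ Fintype.card α) {F : Finset (Finset α)}
    (hanti : IsAntichain (· ⊆ ·) (F : Set (Finset α)))
    (hdiam : ∀ A ∈ F, ∀ B ∈ F, (symmDiff A B).card ≤ 2 * s + 1) (a b : ℕ)
    (hsz : (∀ A ∈ F, A.card ≤ s ∨ A.card = a ∨ A.card = b) ∨
      ((∀ A ∈ F, ∀ B ∈ F, (symmDiff A B).card ≤ 2 * s) ∧ a ≤ b ∧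
        ∀ A ∈ F, A.card ≤ s ∨ A.card = a ∨ A.card = b ∨ A.card = b + 1)) :
    F.card ≤ (Fintype.card α).choose s := by
  rcases hsz with hsz | ⟨hd, hab, hsz⟩
  · wlog hab : a ≤ b generalizing a b
    · exact this b a (fun A hA => by have := hsz A hA; tauto) (by omega)
    have key : ∀ c : ℕ, s < c → (∀ A ∈ F, A.card ≤ s ∨ c ≤ A.card) →
        (∀ A ∈ F, c < A.card → A.card = b) → F.card ≤ (Fintype.card α).choose s := by
      intro c hc hgap htop
      refine card_le_choose hs hc hanti hgap ?_ ?_
      · intro A hA B hB hAc hBc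
        exact sdiff_le_of_diam (hdiam A hA B hB) (by omega)
      · intro A hA B hB hAc hBc
        have e1 := htop A hA hAc
        have e2 := htop B hB hBc
        exact sdiff_le_of_diam (hdiam A hA B hB) (by omega)
    rcases Nat.lt_or_ge s a with h | h
    · exact key a h (fun A hA => by have := hsz A hA; omega)
        (fun A hA hc => by have := hsz A hA; omega)
    · rcases Nat.lt_or_ge s b with h' | h'
      · exact key b h' (fun A hA => by have := hsz A hA; omega)
          (fun A hA hc => by have := hsz A hA; omega)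
      · exact key (s + 1) (by omega) (fun A hA => by have := hsz A hA; omega)
          (fun A hA hc => by have := hsz A hA; omega)
  · have key : ∀ c : ℕ, s < c → (∀ A ∈ F, A.card ≤ s ∨ c ≤ A.card) →
        (∀ A ∈ F, c < A.card → A.card = b ∨ A.card = b + 1) →
        F.card ≤ (Fintype.card α).choose s := by
      intro c hc hgap htop
      refine card_le_choose hs hc hanti hgap ?_ ?_
      · intro A hA B hB hAc hBc
        exact sdiff_le_of_diam (hdiam A hA B hB) (by omega)
      · intro A hA B hB hAc hBc
        have e1 := htop A hA hAc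
        have e2 := htop B hB hBc
        exact sdiff_le_of_diam' (hd A hA B hB) (by omega)
    rcases Nat.lt_or_ge s a with h | h
    · exact key a h (fun A hA => by have := hsz A hA; omega)
        (fun A hA hc => by have := hsz A hA; omega)
    · rcases Nat.lt_or_ge s b with h' | h'
      · exact key b h' (fun A hA => by have := hsz A hA; omega)
          (fun A hA hc => by have := hsz A hA; omega)
      · exact key (s + 1) (by omega) (fun A hA => by have := hsz A hA; omega)
          (fun A hA hc => by have := hsz A hA; omega)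

theorem symmDiff_compl (A B : Finset α) : symmDiff Aᶜ Bᶜ = symmDiff A B := by
  rw [symmDiff_def, symmDiff_def, co_sdiff, co_sdiff, sup_eq_union, sup_eq_union, union_comm]

/-- The complementary form of `two_above`. -/
theorem two_below {s : ℕ} (hs : 2 * s ≤ Fintype.card α) {F : Finset (Finset α)}
    (hanti : IsAntichain (· ⊆ ·) (F : Set (Finset α)))
    (hdiam : ∀ A ∈ F, ∀ B ∈ F, (symmDiff A B).card ≤ 2 * s + 1) (a b : ℕ)
    (hsz : (∀ A ∈ F, Fintype.card α ≤ A.card + s ∨ A.card = a ∨ A.card = b) ∨
      ((∀ A ∈ F, ∀ B ∈ F, (symmDiff A B).card ≤ 2 * s) ∧ b ≤ a ∧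
        ∀ A ∈ F, Fintype.card α ≤ A.card + s ∨ A.card = a ∨ A.card = b ∨ A.card + 1 = b)) :
    F.card ≤ (Fintype.card α).choose s := by
  rw [← card_co F]
  have hle : ∀ A : Finset α, A.card ≤ Fintype.card α := fun A => card_le_univ A
  have hcc : ∀ A : Finset α, A.card + Aᶜ.card = Fintype.card α := fun A => card_add_card_compl A
  by_cases hF : F = ∅
  · subst hF
    simp [co]
  refine two_above hs (co_antichain hanti) ?_ (Fintype.card α - a) (Fintype.card α - b) ?_
  · intro A hA B hB
    rw [mem_co] at hA hB
    rw [← symmDiff_compl A B]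
    exact hdiam _ hA _ hB
  · rcases hsz with hsz | ⟨hd, hab, hsz⟩
    · left
      intro A hA
      rw [mem_co] at hA
      have e1 := hsz _ hA
      have e2 := hcc A
      omega
    · right
      refine ⟨?_, ?_, ?_⟩
      · intro A hA B hB
        rw [mem_co] at hA hB
        rw [← symmDiff_compl A B]
        exact hd _ hA _ hB
      · omega
      · intro A hA
        rw [mem_co] at hA
        have e1 := hsz _ hA
        have e2 := hcc A
        omega

/-- At most one size lies strictly between `s` and `card α - s`; all other sizes are arbitrary. -/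
theorem one_between {s : ℕ} (hs : 2 * s < Fintype.card α) {F : Finset (Finset α)}
    (hanti : IsAntichain (· ⊆ ·) (F : Set (Finset α)))
    (hdiam : ∀ A ∈ F, ∀ B ∈ F, (symmDiff A B).card ≤ 2 * s + 1) (a : ℕ)
    (hsz : ∀ A ∈ F, A.card ≤ s ∨ A.card = a ∨ Fintype.card α ≤ A.card + s) :
    F.card ≤ (Fintype.card α).choose s := by
  have hcc : ∀ A : Finset α, A.card + Aᶜ.card = Fintype.card α := fun A => card_add_card_compl A
  have hcc' : ∀ A : Finset α, Aᶜ.card + A.card = Fintype.card α := by
    intro A
    have := hcc A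
    omega
  -- push the large members down to the size `card α - s`
  set G := co (pushLow s (co F)) with hG
  have hGanti : IsAntichain (· ⊆ ·) (G : Set (Finset α)) :=
    co_antichain (pushLow_antichain (co_antichain hanti))
  have hcard : F.card ≤ G.card := by
    rw [hG, card_co, ← card_co F]
    exact card_le_pushLow hs.le (co_antichain hanti)
  have hmem : ∀ A, A ∈ G → (A ∈ F ∧ A.card + s < Fintype.card α) ∨
      A.card + s = Fintype.card α := by
    intro A hA
    rw [hG, mem_co, mem_pushLow, mem_co, compl_compl] at hA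
    have e1 := hcc A
    rcases hA with ⟨h1, h2⟩ | ⟨h1, -⟩
    · left
      exact ⟨h1, by omega⟩
    · right
      omega
  have hsd : ∀ A B : Finset α, B.card + s = Fintype.card α → (A \ B).card ≤ s := by
    intro A B hB
    have e1 : (A \ B).card ≤ (Bᶜ).card := card_le_card (by
      intro x hx
      exact mem_compl.mpr (mem_sdiff.mp hx).2)
    have e2 := hcc B
    omega
  refine hcard.trans ?_
  by_cases ha : s < a ∧ a + s < Fintype.card α
  · refine card_le_choose hs.le ha.1 hGanti ?_ ?_ ?_
    · intro A hA
      rcases hmem A hA with ⟨h1, h2⟩ | h1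
      · have := hsz A h1
        omega
      · omega
    · intro A hA B hB hAc hBc
      rcases hmem B hB with ⟨h1, h2⟩ | h1
      · rcases hmem A hA with ⟨h3, h4⟩ | h3
        · have := hsz B h1
          exact sdiff_le_of_diam (hdiam A h3 B h1) (by omega)
        · omega
      · exact hsd A B h1
    · intro A hA B hB hAc hBc
      rcases hmem B hB with ⟨h1, h2⟩ | h1
      · have := hsz B h1
        omega
      · exact hsd A B h1
  · refine card_le_choose (a := Fintype.card α - s) hs.le (by omega) hGanti ?_ ?_ ?_
    · intro A hA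
      rcases hmem A hA with ⟨h1, h2⟩ | h1
      · have := hsz A h1
        omega
      · omega
    · intro A hA B hB hAc hBc
      rcases hmem B hB with ⟨h1, h2⟩ | h1
      · omega
      · exact hsd A B h1
    · intro A hA B hB hAc hBc
      rcases hmem B hB with ⟨h1, h2⟩ | h1
      · omega
      · exact hsd A B h1

end Pool.Agent.Rank
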