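import Pool.Agent.Rank.Core

/-!
# The level `n - s` is free in the diameter version

`n` points, `diameter ≤ n - k`, `s = (n - k) / 2`. `card_le_choose_top`: the antichain may have
arbitrarily many members of size `n - s` if all its sizes are in `(s - k, n - s]` and, in the odd
case, none of the sizes is `n - s - 1`: the `s`-sets which are complements of the members of size
`n - s` are neither above a member of size at most `s` nor below a member of a size in `(s, n - s)`.
-/

set_option autoImplicit false

namespace Pool.Agent.Rank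

variable {α : Type*} [Fintype α] [DecidableEq α]

private theorem choose_mono_Even {n r s : ℕ} (hrs : r ≤ s) (h : 2 * s ≤ n) :
    n.choose r ≤ n.choose s := by
  induction s, hrs using Nat.le_induction with
  | base => exact le_refl _
  | succ s hs ih =>
    exact (ih (by omega)).trans (Nat.choose_le_succ_of_lt_half_left (by omega))

private theorem card_le_upshadow_Even {s : ℕ} {G : Finset (Finset α)}
    (hanti : IsAntichain (· ⊆ ·) (G : Set (Finset α))) (hs : ∀ A ∈ G, A.card ≤ s)
    (h2 : 2 * s ≤ Fintype.card α) :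
    G.card ≤ (Finset.univ.filter (fun T : Finset α => T.card = s ∧ ∃ A ∈ G, A ⊆ T)).card := by
  set U := Finset.univ.filter (fun T : Finset α => T.card = s ∧ ∃ A ∈ G, A ⊆ T) with hU
  set N := Finset.univ.filter (fun T : Finset α => T.card = s ∧ ∀ A ∈ G, ¬ A ⊆ T) with hN
  have hdisj : Disjoint G N := by
    rw [Finset.disjoint_left]
    intro A hA hAN
    exact (Finset.mem_filter.1 hAN).2.2 A hA (Finset.Subset.refl A)
  have hanti' : IsAntichain (· ⊆ ·) (SetLike.coe (G ∪ N)) := by
    intro A hA B hB hne hAB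
    rw [SetLike.mem_coe, Finset.mem_union] at hA hB
    rcases hA with hA | hA <;> rcases hB with hB | hB
    · exact hanti hA hB hne hAB
    · exact (Finset.mem_filter.1 hB).2.2 A hA hAB
    · have h3 : A.card = s := (Finset.mem_filter.1 hA).2.1
      exact hne (Finset.eq_of_subset_of_card_le hAB (by rw [h3]; exact hs B hB))
    · have h3 : A.card = s := (Finset.mem_filter.1 hA).2.1
      have h4 : B.card = s := (Finset.mem_filter.1 hB).2.1
      exact hne (Finset.eq_of_subset_of_card_le hAB (by rw [h3, h4]))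
  have hlym := Finset.lubell_yamamoto_meshalkin_inequality_sum_inv_choose (𝕜 := ℚ) hanti'
  rw [Finset.sum_union hdisj] at hlym
  have hsn : s ≤ Fintype.card α := by omega
  have hC : (0 : ℚ) < ((Fintype.card α).choose s : ℚ) := by
    exact_mod_cast Nat.choose_pos hsn
  have hG : (G.card : ℚ) * ((Fintype.card α).choose s : ℚ)⁻¹ ≤
      ∑ A ∈ G, ((Fintype.card α).choose A.card : ℚ)⁻¹ := by
    rw [← nsmul_eq_mul, ← Finset.sum_const]
    refine Finset.sum_le_sum fun A hA => ?_
    have h3 : (0 : ℚ) < ((Fintype.card α).choose A.card : ℚ) := by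
      exact_mod_cast Nat.choose_pos (Finset.card_le_univ A)
    refine inv_anti₀ h3 ?_
    exact_mod_cast choose_mono_Even (hs A hA) h2
  have hN' : ∑ A ∈ N, ((Fintype.card α).choose A.card : ℚ)⁻¹ =
      (N.card : ℚ) * ((Fintype.card α).choose s : ℚ)⁻¹ := by
    rw [← nsmul_eq_mul, ← Finset.sum_const]
    refine Finset.sum_congr rfl fun A hA => ?_
    rw [(Finset.mem_filter.1 hA).2.1]
  have h5 : (G.card : ℚ) + N.card ≤ (Fintype.card α).choose s := by
    have h6 : ((G.card : ℚ) + N.card) * ((Fintype.card α).choose s : ℚ)⁻¹ ≤ 1 := by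
      rw [add_mul]
      linarith
    rwa [← div_eq_mul_inv, div_le_one hC] at h6
  have h6 : U.card + N.card = (Fintype.card α).choose s := by
    have h7 : Finset.univ.filter (fun T : Finset α => T.card = s) = U ∪ N := by
      ext T
      simp only [hU, hN, Finset.mem_filter, Finset.mem_univ, true_and, Finset.mem_union]
      constructor
      · intro h
        by_cases h8 : ∃ A ∈ G, A ⊆ T
        · exact Or.inl ⟨h, h8⟩
        · exact Or.inr ⟨h, fun A hA hAT => h8 ⟨A, hA, hAT⟩⟩
      · rintro (h | h)
        · exact h.1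
        · exact h.1
    have h8 : Disjoint U N := by
      rw [Finset.disjoint_left]
      intro T hT hT'
      obtain ⟨A, hA, hAT⟩ := (Finset.mem_filter.1 hT).2.2
      exact (Finset.mem_filter.1 hT').2.2 A hA hAT
    rw [← Finset.card_union_of_disjoint h8, ← h7]
    have h9 : Finset.univ.filter (fun T : Finset α => T.card = s) =
        Finset.powersetCard s Finset.univ := by
      ext T
      simp [Finset.mem_powersetCard]
    rw [h9, Finset.card_powersetCard, Finset.card_univ]
  have h7 : ((G.card + N.card : ℕ) : ℚ) ≤ ((U.card + N.card : ℕ) : ℚ) := by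
    rw [h6]
    push_cast
    exact h5
  have h8 : G.card + N.card ≤ U.card + N.card := by exact_mod_cast h7
  omega

private theorem symmDiff_card_Even (A B : Finset α) :
    (symmDiff A B).card = (A \ B).card + (B \ A).card := by
  rw [symmDiff_def, Finset.sup_eq_union, Finset.card_union_of_disjoint]
  exact disjoint_sdiff_sdiff

private theorem sdiff_card_Even (A B : Finset α) :
    (A \ B).card + B.card = (B \ A).card + A.card := by
  have h4 := Finset.card_sdiff_add_card_inter A B
  have h5 := Finset.card_sdiff_add_card_inter B A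
  rw [Finset.inter_comm B A] at h5
  omega

/-- **the level `n - s` is free** -/
theorem card_le_choose_top {k s a : ℕ} {F : Finset (Finset α)} (hk : 1 ≤ k)
    (hkn : k ≤ Fintype.card α) (hs : s = (Fintype.card α - k) / 2)
    (hanti : IsAntichain (· ⊆ ·) (F : Set (Finset α)))
    (hd : ∀ A ∈ F, ∀ B ∈ F, (symmDiff A B).card ≤ Fintype.card α - k)
    (hlo : ∀ A ∈ F, s < A.card + k) (hhi : ∀ A ∈ F, A.card + s ≤ Fintype.card α)
    (hodd : (Fintype.card α - k) % 2 = 1 → ∀ A ∈ F, A.card + s + 1 ≠ Fintype.card α)
    (hsa : s ≤ a) (hsz : ∀ A ∈ F, A.card ≤ s ∨ a ≤ A.card)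
    (htop : ∀ A ∈ F, ∀ B ∈ F, a < A.card → a < B.card → A.card + s < Fintype.card α →
      B.card + s < Fintype.card α → (A \ B).card ≤ s) :
    F.card ≤ (Fintype.card α).choose s := by
  set n := Fintype.card α with hn
  have h2 : 2 * s ≤ n := by omega
  set L := F.filter (fun A => A.card ≤ s) with hL
  set H := F.filter (fun A => ¬ A.card ≤ s) with hH
  set M := H.filter (fun A => A.card + s < n) with hM
  set T := H.filter (fun A => ¬ A.card + s < n) with hT
  have hLF : ∀ A ∈ L, A ∈ F ∧ A.card ≤ s := fun A hA => Finset.mem_filter.1 hA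
  have hHF : ∀ A ∈ H, A ∈ F ∧ ¬ A.card ≤ s := fun A hA => Finset.mem_filter.1 hA
  have hMF : ∀ A ∈ M, A ∈ F ∧ ¬ A.card ≤ s ∧ A.card + s < n := fun A hA =>
    ⟨(hHF A (Finset.mem_filter.1 hA).1).1, (hHF A (Finset.mem_filter.1 hA).1).2,
      (Finset.mem_filter.1 hA).2⟩
  have hTF : ∀ A ∈ T, A ∈ F ∧ A.card + s = n := fun A hA => by
    have h3 := (hHF A (Finset.mem_filter.1 hA).1).1
    have h4 := (Finset.mem_filter.1 hA).2
    have h5 := hhi A h3
    exact ⟨h3, by omega⟩
  have hcard1 : L.card + H.card = F.card := Finset.card_filter_add_card_filter_not _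
  have hcard2 : M.card + T.card = H.card := Finset.card_filter_add_card_filter_not _
  set U1 := Finset.univ.filter (fun X : Finset α => X.card = s ∧ ∃ A ∈ L, A ⊆ X) with hU1
  set U2 := Finset.univ.filter (fun X : Finset α => X.card = s ∧ ∃ A ∈ M, X ⊆ A) with hU2
  set U3 := T.image compl with hU3
  have h3 : L.card ≤ U1.card := card_le_upshadow_Even (s := s) (G := L) (hanti.subset (by
    intro A hA
    exact (hLF A hA).1)) (fun A hA => (hLF A hA).2) h2
  have h4 : M.card ≤ U2.card := card_le_shadow (s := s) (a := a) (F := M) hsa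
    (hanti.subset (by
      intro A hA
      exact (hMF A hA).1)) (fun A hA => (hsz A (hMF A hA).1).resolve_left (hMF A hA).2.1)
    (by
      intro A hA B hB hAa
      have h5 := (hsz B (hMF B hB).1).resolve_left (hMF B hB).2.1
      have h6 := sdiff_card_Even A B
      have h7 := hd A (hMF A hA).1 B (hMF B hB).1
      rw [symmDiff_card_Even] at h7
      omega)
    (fun A hA B hB h5 h6 => htop A (hMF A hA).1 B (hMF B hB).1 h5 h6 (hMF A hA).2.2
      (hMF B hB).2.2)
  have h5 : T.card = U3.card := (Finset.card_image_of_injective T compl_injective).symm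
  have hd12 : Disjoint U1 U2 := by
    rw [Finset.disjoint_left]
    intro X hX hX'
    obtain ⟨A, hA, hAX⟩ := (Finset.mem_filter.1 hX).2.2
    obtain ⟨B, hB, hXB⟩ := (Finset.mem_filter.1 hX').2.2
    have hne : A ≠ B := by
      intro h
      have h5 := (hLF A hA).2
      have h6 := (hMF B hB).2.1
      rw [h] at h5
      exact h6 h5
    exact hanti (hLF A hA).1 (hMF B hB).1 hne (hAX.trans hXB)
  have hd13 : Disjoint U1 U3 := by
    rw [Finset.disjoint_left]
    intro X hX hX'
    obtain ⟨A, hA, hAX⟩ := (Finset.mem_filter.1 hX).2.2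
    obtain ⟨B, hB, hXB⟩ := Finset.mem_image.1 hX'
    have h6 := hd A (hLF A hA).1 B (hTF B hB).1
    rw [symmDiff_card_Even] at h6
    have h7 : Disjoint A B := by
      rw [← hXB] at hAX
      exact Finset.subset_compl_iff_disjoint_right.1 hAX
    rw [Finset.sdiff_eq_self_of_disjoint h7, Finset.sdiff_eq_self_of_disjoint h7.symm] at h6
    have h8 := (hTF B hB).2
    have h9 := hlo A (hLF A hA).1
    omega
  have hd23 : Disjoint U2 U3 := by
    rw [Finset.disjoint_left]
    intro X hX hX'
    obtain ⟨A, hA, hXA⟩ := (Finset.mem_filter.1 hX).2.2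
    obtain ⟨B, hB, hXB⟩ := Finset.mem_image.1 hX'
    have h6 := hd A (hMF A hA).1 B (hTF B hB).1
    rw [symmDiff_card_Even] at h6
    have h7 : A \ B = X := by
      rw [← hXB]
      ext z
      simp only [Finset.mem_sdiff, Finset.mem_compl]
      constructor
      · exact fun h => h.2
      · intro h
        refine ⟨hXA ?_, h⟩
        rw [← hXB]
        exact Finset.mem_compl.2 h
    rw [h7, (Finset.mem_filter.1 hX).2.1] at h6
    have h8 := (hTF B hB).2
    have h9 := sdiff_card_Even A B
    rw [h7, (Finset.mem_filter.1 hX).2.1] at h9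
    have h10 := (hMF A hA).2.2
    have h11 := hodd
    by_cases h12 : (n - k) % 2 = 1
    · have h13 := h11 h12 A (hMF A hA).1
      omega
    · omega
  have h6 : U1.card + U2.card + U3.card ≤ n.choose s := by
    rw [← Finset.card_union_of_disjoint hd12, ← Finset.card_union_of_disjoint
      (Finset.disjoint_union_left.2 ⟨hd13, hd23⟩)]
    have h7 : (Finset.powersetCard s (Finset.univ : Finset α)).card = n.choose s := by
      rw [Finset.card_powersetCard, Finset.card_univ]
    rw [← h7]
    refine Finset.card_le_card fun X hX => ?_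
    rw [Finset.mem_powersetCard]
    refine ⟨Finset.subset_univ X, ?_⟩
    rcases Finset.mem_union.1 hX with h8 | h8
    · rcases Finset.mem_union.1 h8 with h9 | h9
      · exact (Finset.mem_filter.1 h9).2.1
      · exact (Finset.mem_filter.1 h9).2.1
    · obtain ⟨B, hB, rfl⟩ := Finset.mem_image.1 h8
      rw [Finset.card_compl]
      have h9 := (hTF B hB).2
      omega
  omega

/-- **two or three sizes strictly between `s` and `n - s`, the sizes `s` and `n - s` free**:
diameter `≤ n - k`, `s = (n - k) / 2`, all sizes in `(s - k, n - s]`; the sizes strictly between `s`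
and `n - s` are `a ≤ b`, for even `n + k` also `b + 1`; for odd `n + k` no size is `n - s - 1`. -/
theorem between {n k : ℕ} (hk : 1 ≤ k) (hkn : k ≤ n) {F : Finset (Finset (Fin n))}
    (hanti : IsAntichain (· ⊆ ·) (F : Set (Finset (Fin n))))
    (hd : ∀ A ∈ F, ∀ B ∈ F, (symmDiff A B).card ≤ n - k) {a b : ℕ} (hab : a ≤ b)
    (hlo : ∀ A ∈ F, (n - k) / 2 < A.card + k) (hhi : ∀ A ∈ F, A.card + (n - k) / 2 ≤ n)
    (hodd : Odd (n + k) → ∀ A ∈ F, A.card + (n - k) / 2 + 1 ≠ n)
    (h : ∀ A ∈ F, A.card ≤ (n - k) / 2 ∨ A.card + (n - k) / 2 = n ∨ A.card = a ∨ A.card = b ∨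
      (A.card = b + 1 ∧ Even (n + k))) :
    F.card ≤ n.choose ((n + k + 1) / 2) := by
  have key := card_le_choose_top (α := Fin n) (k := k) (s := (n - k) / 2)
    (a := min (max a ((n - k) / 2 + 1)) (n - (n - k) / 2))
    (F := F) hk (by rw [Fintype.card_fin]; exact hkn) (by rw [Fintype.card_fin]) hanti
    (by rw [Fintype.card_fin]; exact hd) hlo (by rw [Fintype.card_fin]; exact hhi)
    (by
      rw [Fintype.card_fin]
      intro h1 A hA
      exact hodd (by rw [Nat.odd_iff]; omega) A hA)
    (by omega)
    (by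
      intro A hA
      have h1 := h A hA
      have h2 := hhi A hA
      omega)
    (by
      rw [Fintype.card_fin]
      intro A hA B hB h1 h2 h6 h7
      have h3 := hd A hA B hB
      rw [symmDiff_card_Even] at h3
      have h4 := sdiff_card_Even A B
      have h5 := h A hA
      have h8 := h B hB
      rw [Nat.even_iff] at h5 h8
      omega)
  rw [Fintype.card_fin] at key
  have h1 : n.choose ((n - k) / 2) = n.choose ((n + k + 1) / 2) := by
    have h2 : (n + k + 1) / 2 = n - (n - k) / 2 := by omega
    rw [h2, Nat.choose_symm (by omega)]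
  rw [← h1]
  exact key

/-- **the same for the complements** -/
theorem between_compl {n k : ℕ} (hk : 1 ≤ k) (hkn : k ≤ n) {F : Finset (Finset (Fin n))}
    (hanti : IsAntichain (· ⊆ ·) (F : Set (Finset (Fin n))))
    (hd : ∀ A ∈ F, ∀ B ∈ F, (symmDiff A B).card ≤ n - k) {a b : ℕ} (hab : a ≤ b)
    (hlo : ∀ A ∈ F, (n - k) / 2 ≤ A.card) (hhi : ∀ A ∈ F, A.card + (n - k) / 2 < n + k)
    (hodd : Odd (n + k) → ∀ A ∈ F, A.card ≠ (n - k) / 2 + 1)
    (h : ∀ A ∈ F, n ≤ A.card + (n - k) / 2 ∨ A.card = (n - k) / 2 ∨ A.card = a ∨ A.card = b ∨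
      (A.card + 1 = a ∧ Even (n + k))) :
    F.card ≤ n.choose ((n + k + 1) / 2) := by
  have hcard : (F.image compl).card = F.card :=
    Finset.card_image_of_injective F compl_injective
  rw [← hcard]
  have hle : ∀ A : Finset (Fin n), A.card ≤ n := fun A => by
    simpa using Finset.card_le_univ A
  refine between hk hkn (F := F.image compl) (a := n - b) (b := n - a) ?_ ?_
    (by omega) ?_ ?_ ?_ ?_
  · intro A hA B hB hne hAB
    rw [Finset.mem_coe, Finset.mem_image] at hA hB
    obtain ⟨A', hA', rfl⟩ := hA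
    obtain ⟨B', hB', rfl⟩ := hB
    exact hanti hB' hA' (fun h1 => hne (by rw [h1])) (compl_le_compl_iff_le.1 hAB)
  · intro A hA B hB
    rw [Finset.mem_image] at hA hB
    obtain ⟨A', hA', rfl⟩ := hA
    obtain ⟨B', hB', rfl⟩ := hB
    rw [compl_symmDiff_compl]
    exact hd A' hA' B' hB'
  · intro A hA
    rw [Finset.mem_image] at hA
    obtain ⟨A', hA', rfl⟩ := hA
    rw [Finset.card_compl, Fintype.card_fin]
    have h1 := hhi A' hA'
    have h2 := hle A'
    omega
  · intro A hA
    rw [Finset.mem_image] at hA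
    obtain ⟨A', hA', rfl⟩ := hA
    rw [Finset.card_compl, Fintype.card_fin]
    have h1 := hlo A' hA'
    have h2 := hle A'
    omega
  · intro h0 A hA
    rw [Finset.mem_image] at hA
    obtain ⟨A', hA', rfl⟩ := hA
    rw [Finset.card_compl, Fintype.card_fin]
    have h1 := hodd h0 A' hA'
    have h2 := hle A'
    omega
  · intro A hA
    rw [Finset.mem_image] at hA
    obtain ⟨A', hA', rfl⟩ := hA
    rw [Finset.card_compl, Fintype.card_fin]
    have h1 := h A' hA'
    have h2 := hle A'
    rw [Nat.even_iff] at h1 ⊢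
    omega

end Pool.Agent.Rank
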