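import Mathlib
import Pool.Agent.Rank.Final

set_option autoImplicit false

open Finset

namespace Pool.Agent.Rank

variable {α : Type*} [Fintype α] [DecidableEq α]

/-- The general form. No size lies strictly between `s` and `a`, where `s < a ≤ card α - s`; and
`|A \ B| ≤ s` if `|A| > a` and `a < |B| < card α - s` (for `|A| = a ≤ |B| < card α - s` it follows
from a bound `2 * s + 1` for the diameter). -/
theorem general {s a : ℕ} (hs : 2 * s ≤ Fintype.card α) (hsa : s < a)
    (has : a + s ≤ Fintype.card α) {F : Finset (Finset α)}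
    (hanti : IsAntichain (· ⊆ ·) (F : Set (Finset α)))
    (hgap : ∀ A ∈ F, A.card ≤ s ∨ a ≤ A.card)
    (h1 : ∀ A ∈ F, ∀ B ∈ F, A.card = a → a ≤ B.card → B.card + s < Fintype.card α →
      (A \ B).card ≤ s)
    (h2 : ∀ A ∈ F, ∀ B ∈ F, a < A.card → a < B.card → B.card + s < Fintype.card α →
      (A \ B).card ≤ s) :
    F.card ≤ (Fintype.card α).choose s := by
  have hcc : ∀ A : Finset α, A.card + Aᶜ.card = Fintype.card α := fun A => card_add_card_compl A
  set G := co (pushLow s (co F)) with hG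
  have hGanti : IsAntichain (· ⊆ ·) (G : Set (Finset α)) :=
    co_antichain (pushLow_antichain (co_antichain hanti))
  have hcard : F.card ≤ G.card := by
    rw [hG, card_co, ← card_co F]
    exact card_le_pushLow hs (co_antichain hanti)
  have hmem : ∀ A, A ∈ G → (A ∈ F ∧ A.card + s < Fintype.card α) ∨
      (A.card + s = Fintype.card α ∧
        ∃ X ∈ F, Fintype.card α ≤ X.card + s ∧ A ⊆ X) := by
    intro A hA
    rw [hG, mem_co, mem_pushLow, mem_co, compl_compl] at hA
    have e1 := hcc A
    rcases hA with ⟨h1, h2⟩ | ⟨h1, B, hB, hBs, hBA⟩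
    · left
      exact ⟨h1, by omega⟩
    · right
      refine ⟨by omega, Bᶜ, mem_co.mp hB, ?_, ?_⟩
      · have := hcc B
        omega
      · rw [← compl_compl A]
        exact compl_subset_compl.mpr hBA
  have hsd : ∀ A B : Finset α, B.card + s = Fintype.card α → (A \ B).card ≤ s := by
    intro A B hB
    have e1 : (A \ B).card ≤ (Bᶜ).card := card_le_card (by
      intro x hx
      exact mem_compl.mpr (mem_sdiff.mp hx).2)
    have e2 := hcc B
    omega
  refine hcard.trans ?_
  refine card_le_choose hs hsa hGanti ?_ ?_ ?_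
  · intro A hA
    rcases hmem A hA with ⟨h3, -⟩ | ⟨h3, -⟩
    · exact hgap A h3
    · omega
  · intro A hA B hB hAc hBc
    rcases hmem B hB with ⟨h3, h4⟩ | ⟨h3, -⟩
    · rcases hmem A hA with ⟨h5, h6⟩ | ⟨h5, -⟩
      · exact h1 A h5 B h3 hAc hBc h4
      · omega
    · exact hsd A B h3
  · intro A hA B hB hAc hBc
    rcases hmem B hB with ⟨h3, h4⟩ | ⟨h3, -⟩
    · rcases hmem A hA with ⟨h5, h6⟩ | ⟨h5, X, hX, hXc, hAX⟩
      · exact h2 A h5 B h3 hAc hBc h4
      · exact (card_le_card (sdiff_subset_sdiff hAX (le_refl B))).trans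
          (h2 X hX B h3 (by omega) hBc h4)
    · exact hsd A B h3

/-- `general` for families of diameter at most `2 * s + 1`. -/
theorem general_diam {s a : ℕ} (hs : 2 * s ≤ Fintype.card α) (hsa : s < a)
    (has : a + s ≤ Fintype.card α) {F : Finset (Finset α)}
    (hanti : IsAntichain (· ⊆ ·) (F : Set (Finset α)))
    (hdiam : ∀ A ∈ F, ∀ B ∈ F, (symmDiff A B).card ≤ 2 * s + 1)
    (hgap : ∀ A ∈ F, A.card ≤ s ∨ a ≤ A.card)
    (h2 : ∀ A ∈ F, ∀ B ∈ F, a < A.card → a < B.card → B.card + s < Fintype.card α →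
      (A \ B).card ≤ s) :
    F.card ≤ (Fintype.card α).choose s :=
  general hs hsa has hanti hgap
    (fun A hA B hB hAc hBc _ => sdiff_le_of_diam (hdiam A hA B hB) (by omega)) h2

/-- Clause for the hand-in: families in which at most one size lies strictly between
`s = ⌊(n-k)/2⌋` and `n - s`, or at most two sizes exceed `s`, or at most two are less than `n - s`
(the other sizes are arbitrary), and more generally all families such that for some `a` with
`s < a ≤ n - s` no size lies strictly between `s` and `a`, and `|A \ B| ≤ s` for all members `A`,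
`B` with `|A| > a` and `a < |B| < n - s`; here `G` is `F` or the family of the complements. -/
theorem clause (n k : ℕ) (F G : Finset (Finset (Fin n))) (hk : 1 ≤ k) (hkn : k ≤ n)
    (hanti : IsAntichain (· ⊆ ·) (F : Set (Finset (Fin n))))
    (hdiam : ∀ A ∈ F, ∀ B ∈ F, (symmDiff A B).card ≤ n - k)
    (hG : G = F ∨ G = F.image (fun A => Aᶜ))
    (h : (∃ a, ∀ A ∈ G, A.card ≤ (n - k) / 2 ∨ A.card = a ∨ n - (n - k) / 2 ≤ A.card) ∨
      (∃ a b, ∀ A ∈ G, A.card ≤ (n - k) / 2 ∨ A.card = a ∨ A.card = b) ∨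
      (Even (n + k) ∧ ∃ a b, a ≤ b ∧
        ∀ A ∈ G, A.card ≤ (n - k) / 2 ∨ A.card = a ∨ A.card = b ∨ A.card = b + 1) ∨
      (∃ a, (n - k) / 2 < a ∧ a ≤ n - (n - k) / 2 ∧
        (∀ A ∈ G, A.card ≤ (n - k) / 2 ∨ a ≤ A.card) ∧
        (∀ A ∈ G, ∀ B ∈ G, a < A.card → a < B.card → B.card < n - (n - k) / 2 →
          (A \ B).card ≤ (n - k) / 2))) :
    F.card ≤ n.choose ((n + k + 1) / 2) := by
  have hc : Fintype.card (Fin n) = n := Fintype.card_fin n
  have hsymm : n.choose ((n + k + 1) / 2) = n.choose ((n - k) / 2) := by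
    rw [← Nat.choose_symm (show (n + k + 1) / 2 ≤ n by omega)]
    congr 1
    omega
  rw [hsymm]
  have hFG : F.card = G.card := by
    rcases hG with rfl | rfl
    · rfl
    · exact (card_co F).symm
  have hGanti : IsAntichain (· ⊆ ·) (G : Set (Finset (Fin n))) := by
    rcases hG with rfl | rfl
    · exact hanti
    · exact co_antichain hanti
  have hGdiam' : ∀ A ∈ G, ∀ B ∈ G, (symmDiff A B).card ≤ n - k := by
    rcases hG with rfl | rfl
    · exact hdiam
    · intro A hA B hB
      have hA' : A ∈ co F := hA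
      have hB' : B ∈ co F := hB
      rw [mem_co] at hA' hB'
      rw [← symmDiff_compl A B]
      exact hdiam _ hA' _ hB'
  have hGdiam : ∀ A ∈ G, ∀ B ∈ G, (symmDiff A B).card ≤ 2 * ((n - k) / 2) + 1 := by
    intro A hA B hB
    have := hGdiam' A hA B hB
    omega
  rw [hFG]
  rcases h with ⟨a, h⟩ | ⟨a, b, h⟩ | ⟨he, a, b, hab, h⟩ | ⟨a, h1, h2, h3, h4⟩
  · have := one_between (s := (n - k) / 2) (by rw [hc]; omega) hGanti hGdiam a
      (fun A hA => by have := h A hA; rw [hc]; omega)
    rwa [hc] at this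
  · have := two_above (s := (n - k) / 2) (by rw [hc]; omega) hGanti hGdiam a b (Or.inl h)
    rwa [hc] at this
  · obtain ⟨r, hr⟩ := he
    have := two_above (s := (n - k) / 2) (by rw [hc]; omega) hGanti hGdiam a b
      (Or.inr ⟨fun A hA B hB => by have := hGdiam' A hA B hB; omega, hab, h⟩)
    rwa [hc] at this
  · have := general_diam (s := (n - k) / 2) (a := a) (by rw [hc]; omega) h1 (by rw [hc]; omega)
      hGanti hGdiam h3
      (fun A hA B hB hAc hBc hBn => h4 A hA B hB hAc hBc (by rw [hc] at hBn; omega))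
    rwa [hc] at this

end Pool.Agent.Rank
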