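import Mathlib
import Pool.Agent.Rank.General
import Pool.Agent.Rank.Even

set_option autoImplicit false

open Finset

namespace Pool.Agent.Rank

/-- The conditions of clause (4) on the family `G` (the family `F` or the family of the complements of
its members); `s` stands for `⌊(n-k)/2⌋`. Sizes at most `s` and at least `n - s` are arbitrary in the
first and the fourth case, sizes at most `s` in the second and the third.

1. at most one size lies strictly between `s` and `n - s`;
2. at most two sizes exceed `s`;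
3. `n + k` is even and all sizes above `s` are among `a`, `b`, `b + 1` with `a ≤ b`;
4. for some `a` with `s < a ≤ n - s` no size lies strictly between `s` and `a`, and `|A \ B| ≤ s` for
   all members `A`, `B` with `|A| > a` and `a < |B| < n - s`;
5. all sizes lie in `(s - k, n - s]`, those strictly between `s` and `n - s` are among `a`, `b`, and
   `b + 1` if `n + k` is even, with `a ≤ b`, and if `n + k` is odd then no size is `n - s - 1`. -/
def Cond (n k : ℕ) (G : Finset (Finset (Fin n))) : Prop :=
  (∃ a, ∀ A ∈ G, A.card ≤ (n - k) / 2 ∨ A.card = a ∨ n - (n - k) / 2 ≤ A.card) ∨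
  (∃ a b, ∀ A ∈ G, A.card ≤ (n - k) / 2 ∨ A.card = a ∨ A.card = b) ∨
  (Even (n + k) ∧ ∃ a b, a ≤ b ∧
    ∀ A ∈ G, A.card ≤ (n - k) / 2 ∨ A.card = a ∨ A.card = b ∨ A.card = b + 1) ∨
  (∃ a, (n - k) / 2 < a ∧ a ≤ n - (n - k) / 2 ∧
    (∀ A ∈ G, A.card ≤ (n - k) / 2 ∨ a ≤ A.card) ∧
    (∀ A ∈ G, ∀ B ∈ G, a < A.card → a < B.card → B.card < n - (n - k) / 2 →
      (A \ B).card ≤ (n - k) / 2)) ∨
  ((∀ A ∈ G, (n - k) / 2 < A.card + k ∧ A.card ≤ n - (n - k) / 2) ∧
    (Odd (n + k) → ∀ A ∈ G, A.card + 1 ≠ n - (n - k) / 2) ∧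
    ∃ a b, a ≤ b ∧ ∀ A ∈ G, A.card ≤ (n - k) / 2 ∨ A.card = n - (n - k) / 2 ∨
      A.card = a ∨ A.card = b ∨ (Even (n + k) ∧ A.card = b + 1))

/-- The bound of Q1 for an antichain `F` of diameter at most `n - k`, if `F` or the family of the
complements of its members satisfies one of the five conditions of `Cond`. -/
theorem clause_all (n k : ℕ) (F G : Finset (Finset (Fin n))) (hk : 1 ≤ k) (hkn : k ≤ n)
    (hanti : IsAntichain (· ⊆ ·) (F : Set (Finset (Fin n))))
    (hdiam : ∀ A ∈ F, ∀ B ∈ F, (symmDiff A B).card ≤ n - k)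
    (hG : G = F ∨ G = F.image (fun A => Aᶜ)) (h : Cond n k G) :
    F.card ≤ n.choose ((n + k + 1) / 2) := by
  rcases h with h | h | h | h | ⟨h1, h2, a, b, hab, h3⟩
  · exact clause n k F G hk hkn hanti hdiam hG (Or.inl h)
  · exact clause n k F G hk hkn hanti hdiam hG (Or.inr (Or.inl h))
  · exact clause n k F G hk hkn hanti hdiam hG (Or.inr (Or.inr (Or.inl h)))
  · exact clause n k F G hk hkn hanti hdiam hG (Or.inr (Or.inr (Or.inr h)))
  · have hFG : F.card = G.card := by
      rcases hG with rfl | rfl
      · rfl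
      · exact (card_co F).symm
    have hGanti : IsAntichain (· ⊆ ·) (G : Set (Finset (Fin n))) := by
      rcases hG with rfl | rfl
      · exact hanti
      · exact co_antichain hanti
    have hGdiam : ∀ A ∈ G, ∀ B ∈ G, (symmDiff A B).card ≤ n - k := by
      rcases hG with rfl | rfl
      · exact hdiam
      · intro A hA B hB
        have hA' : A ∈ co F := hA
        have hB' : B ∈ co F := hB
        rw [mem_co] at hA' hB'
        rw [← symmDiff_compl A B]
        exact hdiam _ hA' _ hB'
    rw [hFG]
    refine between hk hkn hGanti hGdiam hab (fun A hA => (h1 A hA).1)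
      (fun A hA => ?_) (fun ho A hA => ?_) (fun A hA => ?_)
    · have := (h1 A hA).2
      omega
    · have := h2 ho A hA
      omega
    · rcases h3 A hA with h4 | h4 | h4 | h4 | h4
      · exact Or.inl h4
      · right; left; omega
      · exact Or.inr (Or.inr (Or.inl h4))
      · exact Or.inr (Or.inr (Or.inr (Or.inl h4)))
      · exact Or.inr (Or.inr (Or.inr (Or.inr ⟨h4.2, h4.1⟩)))

end Pool.Agent.Rank
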